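import Pool.Agent.Lib.helper22.Conv
import Pool.Agent.Lib.helper22.Lind

namespace Pool.Agent.H.MP_7c844e_an

open Filter Topology OnePoint Pool.Agent.Lib.helper22 Weak Conv
open Pool.Agent.Lib.helper22.Lind (L2 w)

theorem wle (z : c) (n : ℕ) : ‖(z n - z ∞) * w n‖ ≤ ‖((2 * ‖z‖) • w) n‖ := by
  rw [lp.coeFn_smul, Pi.smul_apply, norm_smul, norm_mul,
    Real.norm_of_nonneg (r := 2 * ‖z‖) (by positivity)]
  exact mul_le_mul_of_nonneg_right ((abs_sub _ _).trans (by linarith [co z n, co z ∞]))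
    (norm_nonneg _)

noncomputable def T : c →L[ℝ] L2 :=
  LinearMap.mkContinuous ⟨⟨fun z => ⟨fun n => (z n - z ∞) * w n, (lp.memℓp _).mono' (wle z)⟩,
    fun y z => lp.ext (funext fun n => by
      show (y n + z n - (y ∞ + z ∞)) * w n = (y n - y ∞) * w n + (z n - z ∞) * w n
      ring)⟩,
    fun a z => lp.ext (funext fun n => by
      show (a * z n - a * z ∞) * w n = a * ((z n - z ∞) * w n)
      ring)⟩ (2 * ‖w‖) fun z =>
    (lp.norm_mono two_ne_zero (wle z)).trans_eq (by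
      rw [norm_smul, Real.norm_of_nonneg (by positivity)]; ring)

theorem T_app (z : c) (n : ℕ) : T z n = (z n - z ∞) * (1 / 2) ^ n := rfl

theorem T_one : T 1 = 0 := lp.ext (funext fun n => by rw [T_app]; simp)

theorem T_u : Tendsto (fun n => ‖T (u n)‖) atTop (𝓝 0) := by
  refine (tendsto_pow_atTop_nhds_zero_of_lt_one (r := (1 / 2 : ℝ)) (by norm_num)
    (by norm_num)).congr fun n => ?_
  have : T (u n) = lp.single 2 n ((1 / 2 : ℝ) ^ n) := lp.ext (funext fun k => by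
    rw [T_app, u_nat, u_inf, lp.single_apply, Pi.single_apply]
    split_ifs with h <;> simp [h])
  rw [this, lp.norm_single two_pos, Real.norm_of_nonneg (by positivity)]

noncomputable def δ (k : K) : ℝ := k.elim 1 fun n => ε n

theorem δ_bd (k : K) : 0 < δ k ∧ δ k ≤ 1 ∧ ε k ≤ δ k := by
  induction k using OnePoint.rec with
  | infty => exact ⟨one_pos, le_rfl, zero_le_one⟩
  | coe k => exact ⟨ε_pos k, (ε_bd k).2, le_rfl⟩

abbrev P : Type := WithLp 2 (ℝ × L2)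

noncomputable def A (k : K) : c →L[ℝ] P :=
  (WithLp.prodContinuousLinearEquiv 2 ℝ ℝ L2).symm.toContinuousLinearMap ∘L (ev k).prod (δ k • T)

theorem nsq (k : K) (z : c) : ‖A k z‖ ^ 2 = z k ^ 2 + (δ k * ‖T z‖) ^ 2 := by
  rw [WithLp.prod_norm_sq_eq_of_L2]
  show ‖z k‖ ^ 2 + ‖δ k • T z‖ ^ 2 = _
  rw [norm_smul, Real.norm_of_nonneg (δ_bd k).1.le, Real.norm_eq_abs, sq_abs]

theorem A_ge (k : K) (z : c) : |z k| ≤ ‖A k z‖ :=
  abs_le_of_sq_le_sq (by rw [nsq]; nlinarith [sq_nonneg (δ k * ‖T z‖)]) (norm_nonneg _)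

theorem A_le (k : K) (z : c) : ‖A k z‖ ≤ |z k| + δ k * ‖T z‖ := by
  have := mul_nonneg (δ_bd k).1.le (norm_nonneg (T z))
  refine abs_le_of_sq_le_sq ?_ (by positivity) |>.trans' (le_abs_self _)
  rw [nsq, ← sq_abs (z k)]
  nlinarith [abs_nonneg (z k)]

theorem att (z : c) : ∃ k, ∀ l, ‖A l z‖ ≤ ‖A k z‖ := by
  obtain ⟨k, -, hk⟩ := isCompact_univ.exists_isMaxOn Set.univ_nonempty
    (f := fun k => z k ^ 2 + (ε k * ‖T z‖) ^ 2) (by fun_prop)
  have h : ∀ n : ℕ, ‖A n z‖ ≤ ‖A k z‖ := fun n => by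
    refine abs_le_of_sq_le_sq ?_ (norm_nonneg _) |>.trans' (le_abs_self _)
    rw [nsq, nsq]
    refine (hk (Set.mem_univ (n : K))).trans (add_le_add le_rfl (pow_le_pow_left₀
      (mul_nonneg (ε_bd k).1 (norm_nonneg _))
      (mul_le_mul_of_nonneg_right (δ_bd k).2.2 (norm_nonneg _)) 2))
  rcases le_total ‖A ∞ z‖ ‖A k z‖ with c | c
  · exact ⟨k, OnePoint.rec c h⟩
  · exact ⟨∞, OnePoint.rec le_rfl fun n => (h n).trans c⟩

theorem inj (k : K) (z : c) (h : A k z = 0) : z = 0 := by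
  have a := nsq k z
  rw [h, norm_zero] at a
  have a1 : z k = 0 := by nlinarith [sq_nonneg (z k), sq_nonneg (δ k * ‖T z‖)]
  have a2 : δ k * ‖T z‖ = 0 := by nlinarith [sq_nonneg (z k), sq_nonneg (δ k * ‖T z‖)]
  have a3 := norm_eq_zero.1 ((mul_eq_zero.1 a2).resolve_left (δ_bd k).1.ne')
  have a4 : ∀ l, z l = z ∞ := OnePoint.rec rfl fun n => sub_eq_zero.1
    ((mul_eq_zero.1 ((T_app z n).symm.trans (congrArg (· n) a3))).resolve_right (by positivity))
  exact ContinuousMap.ext fun l => ((a4 l).trans (a4 k).symm).trans a1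

theorem near (z : c) (ρ b : ℝ) (hρ : ρ < 1) (hb : |b| < 1) (h : ∀ k, ‖A k z‖ ≤ ρ) :
    ∀ᶠ n : ℕ in atTop, ∀ k, ‖A k (z + (b - z n) • u n)‖ ≤ 1 := by
  have t1 := (T_u.const_mul 2).const_add ρ
  have t2 := ((lim ε).mul ((T_u.const_mul 2).const_add ‖T z‖)).const_add |b|
  rw [mul_zero, add_zero] at t1
  rw [ε_inf, zero_mul, add_zero] at t2
  filter_upwards [t1.eventually (gt_mem_nhds hρ), t2.eventually (gt_mem_nhds hb)] with n h1 h2 k
  have a : ‖T ((b - z n) • u n)‖ ≤ 2 * ‖T (u n)‖ := by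
    rw [_root_.map_smul, norm_smul]
    exact mul_le_mul_of_nonneg_right ((abs_sub _ _).trans
      (by linarith [A_ge n z, h n])) (norm_nonneg _)
  rcases eq_or_ne k n with rfl | c
  · refine (A_le _ _).trans (le_trans (add_le_add (le_of_eq ?_) ?_) h2.le)
    · simp [u_self]
    · rw [map_add]
      exact mul_le_mul_of_nonneg_left ((norm_add_le _ _).trans (add_le_add le_rfl a)) (ε_pos n).le
  · rw [map_add]
    refine (norm_add_le _ _).trans (le_trans (add_le_add (h k) ((A_le _ _).trans ?_)) h1.le)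
    rw [ContinuousMap.smul_apply, u_ne c, smul_zero, abs_zero, zero_add]
    exact (mul_le_of_le_one_left (norm_nonneg _) (δ_bd k).2.1).trans a

end Pool.Agent.H.MP_7c844e_an
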